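import Pool.Agent.N708.MX.Stm
import Pool.Agent.N303.KQ.FG
import Pool.Agent.Helper278.TB.PropT

/-!
# Project MX (helper708): Kazhdan groups are finitely generated; property (T) of `E_3(A)`

`A` is an algebra generated by four elements over a finite field with at least 256 elements; the
second part is a copy of `Pool.Agent.N169.NS.TT` (helper169) with a lighter import closure
(helper403).
-/

set_option autoImplicit false

namespace Pool.Agent.N403.MX

open Pool.Agent.N44.NS (el E3 single_sq)
open Pool.Agent.Helper278.TB (HP propT_lines)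
open Pool.Agent.N708.MX (PT S_FG S_TT)

/-- Kazhdan groups are finitely generated. -/
theorem t_fg : S_FG := by
  intro G _ hT
  exact Pool.Agent.N303.KQ.exists_free hT

section rel

variable {A : Type} [Ring A]

theorem el_add {i j : Fin 3} (h : i ≠ j) (a b : A) : el i j h (a + b) = el i j h a * el i j h b := by
  apply Units.ext
  change (1 + Matrix.single i j (a + b) : Matrix (Fin 3) (Fin 3) A) =
    (1 + Matrix.single i j a) * (1 + Matrix.single i j b)
  rw [Matrix.single_add]
  simp only [mul_add, add_mul, one_mul, mul_one, single_sq h, add_zero]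
  abel

theorem el_rel {i j k : Fin 3} (hij : i ≠ j) (hjk : j ≠ k) (hik : i ≠ k) (a b : A) :
    el i j hij a * el j k hjk b = el j k hjk b * (el i j hij a * el i k hik (a * b)) := by
  apply Units.ext
  change ((1 + Matrix.single i j a) * (1 + Matrix.single j k b) : Matrix (Fin 3) (Fin 3) A) =
    (1 + Matrix.single j k b) * ((1 + Matrix.single i j a) * (1 + Matrix.single i k (a * b)))
  have h1 : (Matrix.single i j a * Matrix.single j k b : Matrix (Fin 3) (Fin 3) A) =
      Matrix.single i k (a * b) := Matrix.single_mul_single_same ..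
  have h2 : (Matrix.single j k b * Matrix.single i j a : Matrix (Fin 3) (Fin 3) A) = 0 :=
    Matrix.single_mul_single_of_ne _ _ _ _ hik.symm _
  have h3 : (Matrix.single i j a * Matrix.single i k (a * b) : Matrix (Fin 3) (Fin 3) A) = 0 :=
    Matrix.single_mul_single_of_ne _ _ _ _ hij.symm _
  have h4 : (Matrix.single j k b * Matrix.single i k (a * b) : Matrix (Fin 3) (Fin 3) A) = 0 :=
    Matrix.single_mul_single_of_ne _ _ _ _ hik.symm _
  simp only [mul_add, add_mul, one_mul, mul_one, h1, h2, h3, h4, add_zero]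
  abel

theorem el_comm1 {i j k : Fin 3} (hij : i ≠ j) (hik : i ≠ k) (a b : A) :
    el i k hik a * el i j hij b = el i j hij b * el i k hik a := by
  apply Units.ext
  change ((1 + Matrix.single i k a) * (1 + Matrix.single i j b) : Matrix (Fin 3) (Fin 3) A) =
    (1 + Matrix.single i j b) * (1 + Matrix.single i k a)
  have h1 : (Matrix.single i k a * Matrix.single i j b : Matrix (Fin 3) (Fin 3) A) = 0 :=
    Matrix.single_mul_single_of_ne _ _ _ _ hik.symm _
  have h2 : (Matrix.single i j b * Matrix.single i k a : Matrix (Fin 3) (Fin 3) A) = 0 :=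
    Matrix.single_mul_single_of_ne _ _ _ _ hij.symm _
  simp only [mul_add, add_mul, one_mul, mul_one, h1, h2, add_zero]
  abel

theorem el_comm2 {i j k : Fin 3} (hjk : j ≠ k) (hik : i ≠ k) (a b : A) :
    el i k hik a * el j k hjk b = el j k hjk b * el i k hik a := by
  apply Units.ext
  change ((1 + Matrix.single i k a) * (1 + Matrix.single j k b) : Matrix (Fin 3) (Fin 3) A) =
    (1 + Matrix.single j k b) * (1 + Matrix.single i k a)
  have h1 : (Matrix.single i k a * Matrix.single j k b : Matrix (Fin 3) (Fin 3) A) = 0 :=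
    Matrix.single_mul_single_of_ne _ _ _ _ hjk.symm _
  have h2 : (Matrix.single j k b * Matrix.single i k a : Matrix (Fin 3) (Fin 3) A) = 0 :=
    Matrix.single_mul_single_of_ne _ _ _ _ hik.symm _
  simp only [mul_add, add_mul, one_mul, mul_one, h1, h2, add_zero]
  abel

/-- the elementary matrices as elements of `E_3(A)` -/
def eE (i j : Fin 3) (h : i ≠ j) (a : A) : E3 A :=
  ⟨el i j h a, Subgroup.subset_closure ⟨i, j, h, a, rfl⟩⟩

theorem eE_add {i j : Fin 3} (h : i ≠ j) (a b : A) : eE i j h (a + b) = eE i j h a * eE i j h b :=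
  Subtype.ext (el_add h a b)

theorem eE_rel {i j k : Fin 3} (hij : i ≠ j) (hjk : j ≠ k) (hik : i ≠ k) (a b : A) :
    eE i j hij a * eE j k hjk b = eE j k hjk b * (eE i j hij a * eE i k hik (a * b)) :=
  Subtype.ext (el_rel hij hjk hik a b)

theorem eE_comm1 {i j k : Fin 3} (hij : i ≠ j) (hik : i ≠ k) (a b : A) :
    eE i k hik a * eE i j hij b = eE i j hij b * eE i k hik a :=
  Subtype.ext (el_comm1 hij hik a b)

theorem eE_comm2 {i j k : Fin 3} (hjk : j ≠ k) (hik : i ≠ k) (a b : A) :
    eE i k hik a * eE j k hjk b = eE j k hjk b * eE i k hik a :=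
  Subtype.ext (el_comm2 hjk hik a b)

theorem eE_zero {i j : Fin 3} (h : i ≠ j) : (eE i j h (0 : A)) = 1 := by
  have h1 := eE_add h (0 : A) 0
  rw [add_zero] at h1
  exact left_eq_mul.mp h1

theorem mem_mul (S : Subgroup (E3 A)) {i j k : Fin 3} (hij : i ≠ j) (hjk : j ≠ k) (hik : i ≠ k)
    {a b : A} (ha : eE i j hij a ∈ S) (hb : eE j k hjk b ∈ S) : eE i k hik (a * b) ∈ S := by
  have h := eE_rel hij hjk hik a b
  have e : eE i k hik (a * b) = (eE i j hij a)⁻¹ * (eE j k hjk b)⁻¹ *
      (eE i j hij a * eE j k hjk b) := by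
    rw [h]
    group
  rw [e]
  exact mul_mem (mul_mem (inv_mem ha) (inv_mem hb)) (mul_mem ha hb)

end rel

theorem q1 (q : Fin 3) : q ≠ q + 1 := by
  revert q
  decide

theorem q2 (q : Fin 3) : q ≠ q + 2 := by
  revert q
  decide

theorem q12 (q : Fin 3) : q + 1 ≠ q + 2 := by
  revert q
  decide

theorem third (i j : Fin 3) : ∃ l : Fin 3, i ≠ l ∧ l ≠ j := by
  revert i j
  decide

/-- the position of the seven lines -/
def qq : Fin 7 → Fin 3 := ![0, 1, 2, 2, 2, 2, 2]

/-- the coefficients of the seven lines -/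
def av {A : Type} [Ring A] (g : Fin 4 → A) : Fin 7 → A := ![1, 1, 1, g 0, g 1, g 2, g 3]

section lines

variable {K : Type} [Field K] {A : Type} [Ring A] [Algebra K A]

/-- the lines -/
def ul (g : Fin 4 → A) (n : Fin 7) (c : K) : E3 A :=
  eE (qq n) (qq n + 1) (q1 _) (c • av g n)

theorem pair_next (q q' : Fin 3) (hq : q' = q + 1) (a b : A) :
    HP (fun c : K => eE q (q + 1) (q1 _) (c • a)) (fun c : K => eE q' (q' + 1) (q1 _) (c • b)) := by
  subst hq
  have h3 : q + 1 + 1 = q + 2 := by
    rw [add_assoc]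
    rfl
  refine ⟨fun c => eE q (q + 1 + 1) (by rw [h3]; exact q2 q) (c • (a * b)), ?_, ?_, ?_, ?_⟩
  · intro c d
    beta_reduce
    rw [add_smul, eE_add]
  · intro c d
    have h := eE_rel (q1 q) (q1 (q + 1)) (by rw [h3]; exact q2 q) (c • a) (d • b)
    rw [smul_mul_smul_comm] at h
    exact h
  · intro c d
    exact eE_comm1 _ _ _ _
  · intro c d
    exact eE_comm2 _ _ _ _

theorem pair_same (q q' : Fin 3) (hq : q' = q) (a b : A) :
    HP (fun c : K => eE q (q + 1) (q1 _) (c • a)) (fun c : K => eE q' (q' + 1) (q1 _) (c • b)) := by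
  subst hq
  refine ⟨fun _ => 1, ?_, ?_, ?_, ?_⟩
  · intro c d
    rw [mul_one]
  · intro c d
    rw [mul_one]
    exact eE_comm1 _ _ _ _
  · intro c d
    rw [mul_one, one_mul]
  · intro c d
    rw [mul_one, one_mul]

theorem cases3 (q q' : Fin 3) : q' = q ∨ q' = q + 1 ∨ q = q' + 1 := by
  revert q q'
  decide

theorem pairs (g : Fin 4 → A) (m n : Fin 7) :
    HP (ul g m : K → E3 A) (ul g n) ∨ HP (ul g n : K → E3 A) (ul g m) := by
  rcases cases3 (qq m) (qq n) with h | h | h
  · exact Or.inl (pair_same _ _ h _ _)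
  · exact Or.inl (pair_next _ _ h _ _)
  · exact Or.inr (pair_next _ _ h _ _)

theorem gen (g : Fin 4 → A) (hg : Algebra.adjoin K (Set.range g) = ⊤) :
    Subgroup.closure {x | ∃ (n : Fin 7) (t : K), x = ul g n t} = ⊤ := by
  set S : Subgroup (E3 A) := Subgroup.closure {x | ∃ (n : Fin 7) (t : K), x = ul g n t} with hS
  have hl : ∀ (n : Fin 7) (t : K), ul g n t ∈ S := fun n t => Subgroup.subset_closure ⟨n, t, rfl⟩
  -- scalars
  have hc1 : ∀ (c : K), eE 0 1 (by decide) (c • (1 : A)) ∈ S ∧
      eE 1 2 (by decide) (c • (1 : A)) ∈ S ∧ eE 2 0 (by decide) (c • (1 : A)) ∈ S :=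
    fun c => ⟨hl 0 c, hl 1 c, hl 2 c⟩
  have hg1 : ∀ t : Fin 4, eE 2 0 (by decide) (g t) ∈ S := by
    intro t
    have h0 := hl 3 1
    have h1 := hl 4 1
    have h2 := hl 5 1
    have h3 := hl 6 1
    unfold ul at h0 h1 h2 h3
    rw [one_smul] at h0 h1 h2 h3
    fin_cases t
    · exact h0
    · exact h1
    · exact h2
    · exact h3
  -- all positions
  have hc2 : ∀ (c : K) (i j : Fin 3) (h : i ≠ j), eE i j h (c • (1 : A)) ∈ S := by
    intro c
    obtain ⟨a1, a2, a3⟩ := hc1 c
    obtain ⟨b1, b2, b3⟩ := hc1 1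
    rw [one_smul] at b1 b2 b3
    have a4 : eE 0 2 (by decide) (c • (1 : A)) ∈ S := by
      have := mem_mul S (i := 0) (j := 1) (k := 2) (by decide) (by decide) (by decide) a1 b2
      rwa [mul_one] at this
    have a5 : eE 1 0 (by decide) (c • (1 : A)) ∈ S := by
      have := mem_mul S (i := 1) (j := 2) (k := 0) (by decide) (by decide) (by decide) a2 b3
      rwa [mul_one] at this
    have a6 : eE 2 1 (by decide) (c • (1 : A)) ∈ S := by
      have := mem_mul S (i := 2) (j := 0) (k := 1) (by decide) (by decide) (by decide) a3 b1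
      rwa [mul_one] at this
    intro i j h
    fin_cases i <;> fin_cases j
    · exact absurd rfl h
    · exact a1
    · exact a4
    · exact a5
    · exact absurd rfl h
    · exact a2
    · exact a3
    · exact a6
    · exact absurd rfl h
  have hone : ∀ (i j : Fin 3) (h : i ≠ j), eE i j h (1 : A) ∈ S := by
    intro i j h
    have := hc2 1 i j h
    rwa [one_smul] at this
  have hg2 : ∀ (t : Fin 4) (i j : Fin 3) (h : i ≠ j), eE i j h (g t) ∈ S := by
    intro t
    have a1 := hg1 t
    have a2 : eE 2 1 (by decide) (g t) ∈ S := by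
      have := mem_mul S (i := 2) (j := 0) (k := 1) (by decide) (by decide) (by decide) a1
        (hone 0 1 (by decide))
      rwa [mul_one] at this
    have a3 : eE 1 0 (by decide) (g t) ∈ S := by
      have := mem_mul S (i := 1) (j := 2) (k := 0) (by decide) (by decide) (by decide)
        (hone 1 2 (by decide)) a1
      rwa [one_mul] at this
    have a4 : eE 0 1 (by decide) (g t) ∈ S := by
      have := mem_mul S (i := 0) (j := 2) (k := 1) (by decide) (by decide) (by decide)
        (hone 0 2 (by decide)) a2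
      rwa [one_mul] at this
    have a5 : eE 1 2 (by decide) (g t) ∈ S := by
      have := mem_mul S (i := 1) (j := 0) (k := 2) (by decide) (by decide) (by decide) a3
        (hone 0 2 (by decide))
      rwa [mul_one] at this
    have a6 : eE 0 2 (by decide) (g t) ∈ S := by
      have := mem_mul S (i := 0) (j := 1) (k := 2) (by decide) (by decide) (by decide) a4
        (hone 1 2 (by decide))
      rwa [mul_one] at this
    intro i j h
    fin_cases i <;> fin_cases j
    · exact absurd rfl h
    · exact a4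
    · exact a6
    · exact a3
    · exact absurd rfl h
    · exact a5
    · exact a1
    · exact a2
    · exact absurd rfl h
  have hall : ∀ a : A, ∀ (i j : Fin 3) (h : i ≠ j), eE i j h a ∈ S := by
    intro a
    have ha : a ∈ Algebra.adjoin K (Set.range g) := by
      rw [hg]
      exact Algebra.mem_top
    induction ha using Algebra.adjoin_induction with
    | mem x hx =>
      obtain ⟨t, rfl⟩ := hx
      exact hg2 t
    | algebraMap r =>
      intro i j h
      have := hc2 r i j h
      rwa [Algebra.smul_def, mul_one] at this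
    | add x y _ _ hx hy =>
      intro i j h
      rw [eE_add]
      exact mul_mem (hx i j h) (hy i j h)
    | mul x y _ _ hx hy =>
      intro i j h
      obtain ⟨l, hil, hlj⟩ := third i j
      exact mem_mul S hil hlj h (hx i l hil) (hy l j hlj)
  rw [eq_top_iff]
  rintro ⟨x, hx⟩ -
  refine Subgroup.closure_induction (p := fun x hx => (⟨x, hx⟩ : E3 A) ∈ S) ?_ ?_ ?_ ?_ hx
  · rintro x ⟨i, j, h, a, rfl⟩
    exact hall a i j h
  · exact one_mem _
  · intro x y hx hy h1 h2
    exact mul_mem h1 h2
  · intro x hx h1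
    exact inv_mem h1

end lines

/-- Property (T) of `E_3(A)`. -/
theorem t_tt : S_TT := by
  intro K _ _ hK A _ _ g hg
  obtain ⟨S, ε, hε, hT⟩ := propT_lines (Γ := E3 A) hK (n := 7) (by norm_num) (by norm_num)
    (ul g) (fun n a b => by unfold ul; rw [add_smul, eE_add]) (fun m n _ => pairs g m n) (gen g hg)
  intro H _ _ _ π hπ
  exact hT H π (hπ S ε hε)

end Pool.Agent.N403.MX
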